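import Pool.Agent.X77.SB.One

/-!
# The manipulability of the random `d`-ary single elimination bracket

The definitions (`Tour`, `Leaf`, `Marks`, `node`, `win`, `prob`, `Adj`, `IsSNM`, `alpha`) are in
`Pool.Agent.X77.SB.Defs`.
-/

set_option autoImplicit false

namespace Pool.Agent.Results.MP_5ab447_lc.BoundedAwayFromHalf

open Pool.Agent.X77.SB

/-- For all `3 ≤ k ≤ d` the least `α` for which R`d`SEB is `k`-SNM-`α` for all numbers `d ^ h` of teams
exists and is at least `227 / 420`; it is at least `15 / 26` for `d = 4` and at least `1 - 2 / d`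
always. -/
theorem result : ∀ d k : ℕ, 3 ≤ k → k ≤ d →
    IsLeast {α : ℝ | ∀ h : ℕ, 1 ≤ h → IsSNM d h k α} (alpha d k) ∧
    (227 / 420 : ℝ) ≤ alpha d k ∧
    (d = 4 → (15 / 26 : ℝ) ≤ alpha d k) ∧
    1 - 2 / (d : ℝ) ≤ alpha d k := by
  intro d k hk hkd
  have h1 : 1 - 2 / (d : ℝ) ≤ alpha d k := alpha_one d k (hk.trans hkd) (by omega)
  refine ⟨alpha_least d k (by omega), ?_, ?_, h1⟩
  · rcases Nat.lt_or_ge d 4 with h3 | h4
    · have hd : d = 3 := by omega
      subst hd
      exact alpha_three k hk
    · rcases Nat.lt_or_ge d 5 with h4' | h5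
      · have hd : d = 4 := by omega
        subst hd
        have := alpha_four k hk
        norm_num at this ⊢
        linarith
      · have h6 : (5 : ℝ) ≤ d := by exact_mod_cast h5
        have h7 : 2 / (d : ℝ) ≤ 2 / 5 := by
          apply div_le_div_of_nonneg_left (by norm_num) (by norm_num) h6
        linarith
  · intro hd
    subst hd
    exact alpha_four k hk

end Pool.Agent.Results.MP_5ab447_lc.BoundedAwayFromHalf
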